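import Pool.Agent.Helper45.FG.St

set_option autoImplicit false

namespace Pool.Agent.Helper84.FG
open Pool.Agent.Helper45.FG

theorem hSTB : StSTB := by
  classical
  intro K hfd hgal hn x t0 ⟨s, hs⟩
  haveI := hfd
  haveI := hgal
  by_contra hcon
  have hfix : ∀ t : K ≃ₐ[ℚ] K, t ≠ 1 → t ≠ t0 → t x = x := by
    intro t h1 h2
    by_contra h3
    exact hcon ⟨t, h1, h2, h3⟩
  have hs1 : s ≠ 1 := by
    rintro rfl
    exact hs rfl
  have hst : s = t0 := by
    by_contra h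
    exact hs (hfix s hs1 h)
  have ht1 : t0 ≠ 1 := fun h => hs1 (hst.trans h)
  have hcard : 3 ≤ Nat.card (K ≃ₐ[ℚ] K) := by
    rw [IsGalois.card_aut_eq_finrank ℚ K]
    exact hn
  haveI : Finite (K ≃ₐ[ℚ] K) := Nat.finite_of_card_ne_zero (by omega)
  haveI := Fintype.ofFinite (K ≃ₐ[ℚ] K)
  obtain ⟨r, hr⟩ : ∃ r : K ≃ₐ[ℚ] K, r ∉ ({1, t0} : Finset (K ≃ₐ[ℚ] K)) := by
    by_contra h
    have h' : ∀ r : K ≃ₐ[ℚ] K, r ∈ ({1, t0} : Finset (K ≃ₐ[ℚ] K)) := by
      intro r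
      by_contra h2
      exact h ⟨r, h2⟩
    have h3 : Fintype.card (K ≃ₐ[ℚ] K) ≤ 2 := by
      calc Fintype.card (K ≃ₐ[ℚ] K) = (Finset.univ : Finset (K ≃ₐ[ℚ] K)).card := rfl
        _ ≤ ({1, t0} : Finset (K ≃ₐ[ℚ] K)).card :=
            Finset.card_le_card (fun r _ => h' r)
        _ ≤ 2 := Finset.card_le_two
    rw [Nat.card_eq_fintype_card] at hcard
    omega
  have hr1 : r ≠ 1 := fun h => hr (by simp [h])
  have hr0 : r ≠ t0 := fun h => hr (by simp [h])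
  have hrx : r x = x := hfix r hr1 hr0
  have hq : (r⁻¹ * t0) x = x := by
    apply hfix
    · intro h
      exact hr0 (inv_mul_eq_one.mp h)
    · intro h
      have : r⁻¹ = 1 := mul_eq_right.mp h
      exact hr1 (inv_eq_one.mp this)
  have h5 : t0 x = x := by
    have h6 : r ((r⁻¹ * t0) x) = r x := by rw [hq]
    rw [← AlgEquiv.mul_apply, mul_inv_cancel_left, hrx] at h6
    exact h6
  exact hs (by rw [hst]; exact h5)

end Pool.Agent.Helper84.FG
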